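import Pool.Agent.H313.TE.AutC

set_option autoImplicit false
set_option linter.all false

/-! Irreducible complex representations of the free group with finite orbits are the restrictions
of representations of finite-index subgroups of the automorphism group. -/

namespace Pool.Agent.Results.MP_df3f9a_al.ExtensionToAutomorphisms

open Matrix

/-- representations of the free group of rank `n` -/
abbrev Rep (n d : ℕ) : Type := FreeGroup (Fin n) →* SpecialLinearGroup (Fin d) ℂ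

/-- `ρ` has no invariant subspaces besides `⊥` and `⊤`. -/
def IsIrreducible {n d : ℕ} (ρ : Rep n d) : Prop :=
  ∀ W : Submodule ℂ (Fin d → ℂ), (∀ w, ∀ v ∈ W, (ρ w).val *ᵥ v ∈ W) → W = ⊥ ∨ W = ⊤

/-- `ρ ∘ σ` is conjugate to `ρ` for every automorphism `σ`. -/
def IsCharacteristic {n d : ℕ} (ρ : Rep n d) : Prop :=
  ∀ σ : MulAut (FreeGroup (Fin n)), ∃ g : SpecialLinearGroup (Fin d) ℂ,
    ∀ w, ρ (σ w) = g * ρ w * g⁻¹

/-- `ρ ∘ σ` is conjugate to `ρ` for the `σ` in a subgroup of finite index. -/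
def HasFiniteOrbit {n d : ℕ} (ρ : Rep n d) : Prop :=
  ∃ V : Subgroup (MulAut (FreeGroup (Fin n))), V.FiniteIndex ∧
    ∀ σ ∈ V, ∃ g : SpecialLinearGroup (Fin d) ℂ, ∀ w, ρ (σ w) = g * ρ w * g⁻¹

/-- A homomorphism on a subgroup of finite index of the automorphism group that conjugates `ρ`
as the automorphisms do, and that is `ρ` up to roots of unity on the inner automorphisms. -/
def Extends {n d : ℕ} (ρ : Rep n d) : Prop :=
  ∃ (U : Subgroup (MulAut (FreeGroup (Fin n)))) (A : U →* SpecialLinearGroup (Fin d) ℂ),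
    U.FiniteIndex ∧ (∀ (u : U) (w : FreeGroup (Fin n)), ρ (u.val w) = A u * ρ w * (A u)⁻¹) ∧
    ∀ (u : U) (w : FreeGroup (Fin n)), u.val = MulAut.conj w →
      ∃ c : ℂ, c ^ d = 1 ∧ (A u).val = c • (ρ w).val

theorem result (n d : ℕ) (ρ : Rep n d) (hirr : IsIrreducible ρ) :
    (HasFiniteOrbit ρ ↔ Extends ρ) ∧ (IsCharacteristic ρ → Extends ρ) := by
  have key : HasFiniteOrbit ρ → Extends ρ := by
    intro h
    rcases Nat.eq_zero_or_pos d with h0 | hd
    · subst h0
      exact ⟨⊤, 1, inferInstance, fun u w => Subsingleton.elim _ _,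
        fun u w _ => ⟨1, one_pow _, Subsingleton.elim _ _⟩⟩
    · exact Pool.Agent.H313.TE.aut_ext (Pool.Agent.H313.TE.fg_aut n) hd ρ hirr h
  refine ⟨⟨key, ?_⟩, fun h => key ⟨⊤, inferInstance, fun σ _ => h σ⟩⟩
  rintro ⟨U, A, hU, hA, -⟩
  exact ⟨U, hU, fun σ hσ => ⟨A ⟨σ, hσ⟩, fun w => hA ⟨σ, hσ⟩ w⟩⟩

end Pool.Agent.Results.MP_df3f9a_al.ExtensionToAutomorphisms
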