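import Pool.Agent.H313.TE.Red

set_option autoImplicit false
set_option linter.all false

/-! A characteristic representation of dimension at least two of a free group is reducible on every
proper free factor. -/

namespace Pool.Agent.Results.MP_df3f9a_al.ReducibleOnFreeFactors

open Matrix

/-- representations of the free group of rank `n` -/
abbrev Rep (n d : ℕ) : Type := FreeGroup (Fin n) →* SpecialLinearGroup (Fin d) ℂ

/-- `ρ ∘ σ` is conjugate to `ρ` for every automorphism `σ`. -/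
def IsCharacteristic {n d : ℕ} (ρ : Rep n d) : Prop :=
  ∀ σ : MulAut (FreeGroup (Fin n)), ∃ g : SpecialLinearGroup (Fin d) ℂ,
    ∀ w, ρ (σ w) = g * ρ w * g⁻¹

/-- the free factor generated by the generators other than the `i`-th -/
def factor {n : ℕ} (i : Fin n) : Subgroup (FreeGroup (Fin n)) :=
  Subgroup.closure {x | ∃ j, j ≠ i ∧ x = FreeGroup.of j}

theorem result (n d : ℕ) (hd : 2 ≤ d) (ρ : Rep n d) (h : IsCharacteristic ρ)
    (σ : MulAut (FreeGroup (Fin n))) (i : Fin n) :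
    ∃ W : Submodule ℂ (Fin d → ℂ), W ≠ ⊥ ∧ W ≠ ⊤ ∧
      ∀ w ∈ factor i, ∀ v ∈ W, (ρ (σ w)).val *ᵥ v ∈ W := by
  refine Pool.Agent.H313.TE.RD.red (ρ := ρ.comp σ.toMonoidHom) hd ?_ i
  intro τ
  obtain ⟨g, hg⟩ := h (σ * τ * σ⁻¹)
  refine ⟨g, fun w => ?_⟩
  show ρ (σ (τ w)) = g * ρ (σ w) * g⁻¹
  rw [← hg, MulAut.mul_apply, MulAut.mul_apply, MulAut.inv_apply_self]

end Pool.Agent.Results.MP_df3f9a_al.ReducibleOnFreeFactors
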