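import Pool.Agent.H313.TE.Typ

set_option autoImplicit false
set_option linter.all false

/-! For `n ≥ 3` a representation of the free group of rank `n` with finite orbit maps every
primitive element to an element with a unipotent power. -/

namespace Pool.Agent.Results.MP_df3f9a_al.VirtuallyUnipotentType

open Matrix

/-- representations of the free group of rank `n` -/
abbrev Rep (n d : ℕ) : Type := FreeGroup (Fin n) →* SpecialLinearGroup (Fin d) ℂ

/-- `ρ ∘ σ` is conjugate to `ρ` for every automorphism `σ`. -/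
def IsCharacteristic {n d : ℕ} (ρ : Rep n d) : Prop :=
  ∀ σ : MulAut (FreeGroup (Fin n)), ∃ g : SpecialLinearGroup (Fin d) ℂ,
    ∀ w, ρ (σ w) = g * ρ w * g⁻¹

/-- `ρ ∘ σ` is conjugate to `ρ` for the `σ` in a subgroup of finite index. -/
def HasFiniteOrbit {n d : ℕ} (ρ : Rep n d) : Prop :=
  ∃ V : Subgroup (MulAut (FreeGroup (Fin n))), V.FiniteIndex ∧
    ∀ σ ∈ V, ∃ g : SpecialLinearGroup (Fin d) ℂ, ∀ w, ρ (σ w) = g * ρ w * g⁻¹

/-- `x` belongs to a free basis. -/
def IsPrimitive {n : ℕ} (x : FreeGroup (Fin n)) : Prop :=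
  ∃ (σ : MulAut (FreeGroup (Fin n))) (j : Fin n), σ (FreeGroup.of j) = x

/-- Primitive elements have powers that act unipotently. -/
def VirtuallyUnipotentOnPrimitives {n d : ℕ} (ρ : Rep n d) : Prop :=
  ∀ x, IsPrimitive x → ∃ K : ℕ, 0 < K ∧ IsNilpotent ((ρ x).val ^ K - 1)

theorem result (n d : ℕ) (hn : 3 ≤ n) (ρ : Rep n d) :
    (HasFiniteOrbit ρ → VirtuallyUnipotentOnPrimitives ρ) ∧
      (IsCharacteristic ρ → VirtuallyUnipotentOnPrimitives ρ) := by
  have key : HasFiniteOrbit ρ → VirtuallyUnipotentOnPrimitives ρ := by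
    rintro ⟨V, hV, hρ⟩ x ⟨σ, j, rfl⟩
    exact Pool.Agent.H313.TE.Typ.type_unip hn hV hρ σ j
  exact ⟨key, fun h => key ⟨⊤, inferInstance, fun σ _ => h σ⟩⟩

end Pool.Agent.Results.MP_df3f9a_al.VirtuallyUnipotentType
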